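import Pool.Agent.N784.AD.Cl
import Pool.Agent.W164.RC.Split

/-!
# Splitting of the primes of a number field in its ray class field (main part)
-/

set_option autoImplicit false

open NumberField IsDedekindDomain

namespace Pool.Agent.N400.CZ

open Pool.Agent.Y773 (TPos)
open Pool.Agent.Y767 (Mq Cls cls Mq_cop Mq_cancel Mq_ne_bot cls_eq cls_of_mul cls_pi tpos_one)
open Pool.Agent.N784.AD (pi1 pi1_coe T1 T1_one T1_tp exists_compl exists_rep cls_card_le)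

section

variable {M : Type} [Field M] [NumberField M] {𝔮 : Ideal (𝓞 M)} {K : Type} [Field K]
  [NumberField K] {ι : 𝓞 M →+* 𝓞 K} {art : Ideal (𝓞 M) → (𝓞 K ≃+* 𝓞 K)}

/-- the Artin map as a homomorphism -/
def Art (hmul : ∀ 𝔞 𝔟 : Ideal (𝓞 M), IsCoprime 𝔞 𝔮 → IsCoprime 𝔟 𝔮 →
    art (𝔞 * 𝔟) = art 𝔞 * art 𝔟) : Mq 𝔮 →* (𝓞 K ≃+* 𝓞 K) where
  toFun 𝔞 := art 𝔞
  map_one' := by
    have h := hmul 1 1 isCoprime_one_left isCoprime_one_left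
    rw [one_mul] at h
    exact (mul_eq_left.1 h.symm)
  map_mul' 𝔞 𝔟 := hmul _ _ (Mq_cop 𝔞) (Mq_cop 𝔟)

variable (hmul : ∀ 𝔞 𝔟 : Ideal (𝓞 M), IsCoprime 𝔞 𝔮 → IsCoprime 𝔟 𝔮 →
    art (𝔞 * 𝔟) = art 𝔞 * art 𝔟)
  (hker : ∀ 𝔞 : Ideal (𝓞 M), IsCoprime 𝔞 𝔮 → (art 𝔞 = 1 ↔ ∃ a b : 𝓞 M, a - 1 ∈ 𝔮 ∧ b - 1 ∈ 𝔮 ∧
    TPos M a ∧ TPos M b ∧ Ideal.span {a} * 𝔞 = Ideal.span {b}))
  (hbot : 𝔮 ≠ ⊥) (htop : 𝔮 ≠ ⊤)

include hker in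
theorem Art_one_iff (𝔞 : Mq 𝔮) : Art hmul 𝔞 = 1 ↔ cls (pi1 htop) 𝔞 = 1 := by
  have h0 : Art hmul 𝔞 = 1 ↔ art (𝔞 : Ideal (𝓞 M)) = 1 := Iff.rfl
  rw [h0, hker _ (Mq_cop 𝔞)]
  have := Mq_cancel (K := M) htop
  constructor
  · rintro ⟨a, b, ha, hb, ha', hb', hab⟩
    have h1 : pi1 htop ⟨a, ha, ha'⟩ * 𝔞 = pi1 htop ⟨b, hb, hb'⟩ * 1 := by
      apply Subtype.ext
      rw [mul_one, Submonoid.coe_mul, pi1_coe, pi1_coe]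
      exact hab
    rw [cls_of_mul h1, map_one]
  · intro h
    obtain ⟨a, b, hab⟩ := cls_eq (h.trans (map_one (cls (pi1 htop))).symm)
    refine ⟨a, b, T1_one a, T1_one b, T1_tp a, T1_tp b, ?_⟩
    have h1 := congrArg Subtype.val hab
    rw [mul_one, Submonoid.coe_mul, pi1_coe, pi1_coe] at h1
    exact h1

include hker hbot in
theorem Art_eq_iff (𝔞 𝔟 : Mq 𝔮) :
    Art hmul 𝔞 = Art hmul 𝔟 ↔ cls (pi1 htop) 𝔞 = cls (pi1 htop) 𝔟 := by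
  obtain ⟨x, 𝔠, -, -, -, h𝔠⟩ := exists_compl hbot htop 𝔟
  have h1 : Art hmul 𝔟 * Art hmul 𝔠 = 1 := by
    rw [← map_mul, Art_one_iff hmul hker htop, map_mul, h𝔠]
  have h2 : Art hmul 𝔞 = Art hmul 𝔟 ↔ Art hmul (𝔞 * 𝔠) = 1 := by
    rw [map_mul, ← h1]
    exact (mul_left_inj _).symm
  have h3 : cls (pi1 htop) 𝔞 = cls (pi1 htop) 𝔟 ↔ cls (pi1 htop) (𝔞 * 𝔠) = 1 := by
    rw [map_mul, ← h𝔠]
    exact (mul_left_inj _).symm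
  rw [h2, h3, Art_one_iff hmul hker htop]

/-- the group of the values of the Artin map -/
def Gr : Subgroup (𝓞 K ≃+* 𝓞 K) where
  carrier := {g | ∃ 𝔞 : Mq 𝔮, Art hmul 𝔞 = g}
  mul_mem' := by
    rintro _ _ ⟨𝔞, rfl⟩ ⟨𝔟, rfl⟩
    exact ⟨𝔞 * 𝔟, map_mul _ _ _⟩
  one_mem' := ⟨1, map_one _⟩
  inv_mem' := by
    rintro _ ⟨𝔟, rfl⟩
    obtain ⟨x, 𝔠, -, -, -, h𝔠⟩ := exists_compl hbot htop 𝔟
    refine ⟨𝔠, ?_⟩
    have h1 : Art hmul 𝔟 * Art hmul 𝔠 = 1 := by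
      rw [← map_mul, Art_one_iff hmul hker htop, map_mul, h𝔠]
    exact (inv_eq_of_mul_eq_one_right h1).symm

theorem Gr_mem (𝔞 : Mq 𝔮) : Art hmul 𝔞 ∈ Gr hmul hker hbot htop := ⟨𝔞, rfl⟩

theorem Gr_equiv : Nonempty (Cls (pi1 htop) ≃ Gr hmul hker hbot htop) := by
  choose rep hrep using exists_rep hbot htop
  refine ⟨Equiv.ofBijective (fun c => ⟨Art hmul (rep c), Gr_mem hmul hker hbot htop (rep c)⟩) ⟨?_, ?_⟩⟩
  · intro c c' h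
    have h1 : Art hmul (rep c) = Art hmul (rep c') := congrArg Subtype.val h
    rw [Art_eq_iff hmul hker hbot htop, hrep, hrep] at h1
    exact h1
  · rintro ⟨g, 𝔞, rfl⟩
    refine ⟨cls (pi1 htop) 𝔞, Subtype.ext ?_⟩
    change Art hmul (rep (cls (pi1 htop) 𝔞)) = Art hmul 𝔞
    rw [Art_eq_iff hmul hker hbot htop, hrep]

include hker in
theorem Art_order (𝔞 : Mq 𝔮) : orderOf (Art hmul 𝔞) = orderOf (cls (pi1 htop) 𝔞) := by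
  rw [orderOf_eq_orderOf_iff]
  intro n
  rw [← map_pow, ← map_pow, Art_one_iff hmul hker htop]

end

theorem split_main {M : Type} [Field M] [NumberField M] (𝔮 : Ideal (𝓞 M)) (hbot : 𝔮 ≠ ⊥)
    (htop : 𝔮 ≠ ⊤) (K : Type) [Field K] [NumberField K] (ι : 𝓞 M →+* 𝓞 K)
    (art : Ideal (𝓞 M) → (𝓞 K ≃+* 𝓞 K))
    (hmul : ∀ 𝔞 𝔟 : Ideal (𝓞 M), IsCoprime 𝔞 𝔮 → IsCoprime 𝔟 𝔮 → art (𝔞 * 𝔟) = art 𝔞 * art 𝔟)
    (hinvt : ∀ x : 𝓞 K, (∀ 𝔞 : Ideal (𝓞 M), IsCoprime 𝔞 𝔮 → art 𝔞 x = x) ↔ x ∈ ι.range)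
    (hker : ∀ 𝔞 : Ideal (𝓞 M), IsCoprime 𝔞 𝔮 → (art 𝔞 = 1 ↔ ∃ a b : 𝓞 M, a - 1 ∈ 𝔮 ∧
      b - 1 ∈ 𝔮 ∧ TPos M a ∧ TPos M b ∧ Ideal.span {a} * 𝔞 = Ideal.span {b}))
    (hunr : ∀ v : HeightOneSpectrum (𝓞 K), ¬ 𝔮.map ι ≤ v.asIdeal →
      ∀ 𝔞 : Ideal (𝓞 M), IsCoprime 𝔞 𝔮 → (∀ x, art 𝔞 x - x ∈ v.asIdeal) → art 𝔞 = 1)
    (hfrob : ∀ 𝔭 : Ideal (𝓞 M), 𝔭.IsPrime → IsCoprime 𝔭 𝔮 → ∀ v : HeightOneSpectrum (𝓞 K),
      𝔭.map ι ≤ v.asIdeal → ∀ x : 𝓞 K, art 𝔭 x - x ^ Ideal.absNorm 𝔭 ∈ v.asIdeal)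
    (𝔭 : Ideal (𝓞 M)) (hp : 𝔭.IsPrime) (hp0 : 𝔭 ≠ ⊥) (hc : IsCoprime 𝔭 𝔮) :
    (∀ v : HeightOneSpectrum (𝓞 K), 𝔭.map ι ≤ v.asIdeal →
      Ideal.absNorm v.asIdeal = Ideal.absNorm 𝔭 ^ orderOf (cls (pi1 htop) ⟨𝔭, hc⟩)) ∧
    Nat.card {v : HeightOneSpectrum (𝓞 K) // 𝔭.map ι ≤ v.asIdeal} *
      orderOf (cls (pi1 htop) ⟨𝔭, hc⟩) = Nat.card (Cls (pi1 htop)) := by
  classical
  obtain ⟨eG⟩ := Gr_equiv hmul hker hbot htop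
  have hfC := (cls_card_le hbot htop).1
  set G := Gr hmul hker hbot htop with hG
  have hfG : Finite G := Finite.of_equiv _ eG
  letI : Algebra (𝓞 M) (𝓞 K) := ι.toAlgebra
  have halg : ∀ a : 𝓞 M, algebraMap (𝓞 M) (𝓞 K) a = ι a := fun _ => rfl
  have hgi : ∀ (g : G) (a : 𝓞 M), g • (ι a) = ι a := by
    rintro ⟨g, 𝔞, rfl⟩ a
    exact (hinvt (ι a)).2 ⟨a, rfl⟩ 𝔞 (Mq_cop 𝔞)
  have hcomm : SMulCommClass G (𝓞 M) (𝓞 K) := by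
    constructor
    intro g a x
    rw [Algebra.smul_def, Algebra.smul_def, halg, smul_mul', hgi]
  have hinv : Algebra.IsInvariant (𝓞 M) (𝓞 K) G := by
    constructor
    intro b hb
    obtain ⟨a, ha⟩ := (hinvt b).1 (fun 𝔞 h𝔞 =>
      hb ⟨Art hmul ⟨𝔞, h𝔞⟩, Gr_mem hmul hker hbot htop ⟨𝔞, h𝔞⟩⟩)
    exact ⟨a, ha⟩
  have hmax : 𝔭.IsMaximal := hp.isMaximal hp0
  have hfz : Finite (𝓞 M ⧸ 𝔭) := Ideal.finiteQuotientOfFreeOfNeBot 𝔭 hp0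
  have hcardz : Nat.card (𝓞 M ⧸ 𝔭) = Ideal.absNorm 𝔭 := by
    rw [Ideal.absNorm_apply, Submodule.cardQuot_apply]
  have hιinj : Function.Injective ι := by
    rw [injective_iff_map_eq_zero]
    intro a ha
    have h1 := Ideal.absNorm_mem (Ideal.span {a})
    obtain ⟨c, hc'⟩ := Ideal.mem_span_singleton'.1 h1
    have h2 := congrArg ι hc'
    rw [map_mul, ha, mul_zero, map_natCast] at h2
    have h3 : Ideal.absNorm (Ideal.span {a}) = 0 := by exact_mod_cast h2.symm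
    rw [Ideal.absNorm_eq_zero_iff, Ideal.span_singleton_eq_bot] at h3
    exact h3
  have hunder : ∀ P : Ideal (𝓞 K), P.IsPrime → 𝔭.map ι ≤ P → P.LiesOver 𝔭 := by
    intro P hP hle
    constructor
    refine hmax.eq_of_le ?_ ?_
    · exact (inferInstance : (P.under (𝓞 M)).IsPrime).ne_top
    · exact Ideal.map_le_iff_le_comap.1 hle
  -- one place
  have key : ∀ v : HeightOneSpectrum (𝓞 K), 𝔭.map ι ≤ v.asIdeal →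
      Ideal.absNorm v.asIdeal = Ideal.absNorm 𝔭 ^ orderOf (cls (pi1 htop) ⟨𝔭, hc⟩) ∧
      (𝔭.primesOver (𝓞 K)).ncard * orderOf (cls (pi1 htop) ⟨𝔭, hc⟩) = Nat.card G := by
    intro v hv
    have hvmax : v.asIdeal.IsMaximal := v.isPrime.isMaximal v.ne_bot
    have hfv : Finite (𝓞 K ⧸ v.asIdeal) := Ideal.finiteQuotientOfFreeOfNeBot v.asIdeal v.ne_bot
    have hover : v.asIdeal.LiesOver 𝔭 := hunder _ v.isPrime hv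
    have hqv : ¬ 𝔮.map ι ≤ v.asIdeal := by
      intro hq
      apply v.isPrime.ne_top
      rw [eq_top_iff, ← Ideal.map_top ι, ← (Ideal.isCoprime_iff_sup_eq.1 hc), Ideal.map_sup]
      exact sup_le hv hq
    have h5 := Pool.Agent.W164.RC.split_abs G 𝔭 v.asIdeal (by
      rintro ⟨g, 𝔞, rfl⟩ hg
      exact Subtype.ext (hunr v hqv 𝔞 (Mq_cop 𝔞) hg))
      ⟨Art hmul ⟨𝔭, hc⟩, Gr_mem hmul hker hbot htop ⟨𝔭, hc⟩⟩ (by
      intro x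
      rw [hcardz]
      exact hfrob 𝔭 hp hc v hv x)
    rw [hcardz, ← Subgroup.orderOf_coe, Subgroup.coe_mk, Art_order hmul hker htop] at h5
    refine ⟨?_, h5.2⟩
    rw [Ideal.absNorm_apply, Submodule.cardQuot_apply]
    exact h5.1
  -- existence of a place
  have hne : ∀ P : Ideal (𝓞 K), P.LiesOver 𝔭 → P ≠ ⊥ := by
    intro P hP hPb
    apply hp0
    rw [hP.over, hPb, eq_bot_iff]
    intro a ha
    rw [Ideal.mem_comap, Ideal.mem_bot, halg] at ha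
    rw [Ideal.mem_bot]
    exact hιinj (by rw [ha, map_zero])
  have hex : ∃ v : HeightOneSpectrum (𝓞 K), 𝔭.map ι ≤ v.asIdeal := by
    have hint : Algebra.IsIntegral (𝓞 M) (𝓞 K) := Algebra.IsInvariant.isIntegral (𝓞 M) (𝓞 K) G
    have hfs : FaithfulSMul (𝓞 M) (𝓞 K) := by
      rw [faithfulSMul_iff_algebraMap_injective]
      exact hιinj
    obtain ⟨P, hPm, hPo⟩ := Ideal.exists_maximal_ideal_liesOver_of_isIntegral (S := 𝓞 K) 𝔭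
    refine ⟨⟨P, hPm.isPrime, hne P hPo⟩, ?_⟩
    rw [Ideal.map_le_iff_le_comap]
    exact hPo.over.le
  obtain ⟨v0, hv0⟩ := hex
  refine ⟨fun v hv => (key v hv).1, ?_⟩
  have h6 := (key v0 hv0).2
  have h7 : Nat.card {v : HeightOneSpectrum (𝓞 K) // 𝔭.map ι ≤ v.asIdeal} =
      (𝔭.primesOver (𝓞 K)).ncard := by
    rw [← Nat.card_coe_set_eq]
    refine Nat.card_congr
      { toFun := fun v => ⟨v.1.asIdeal, v.1.isPrime, hunder _ v.1.isPrime v.2⟩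
        invFun := fun P => ⟨⟨P.1, P.2.1, hne _ P.2.2⟩, by
          rw [Ideal.map_le_iff_le_comap]
          exact P.2.2.over.le⟩
        left_inv := fun v => rfl
        right_inv := fun P => rfl }
  rw [h7, h6]
  exact (Nat.card_congr eG).symm

end Pool.Agent.N400.CZ
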