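import Pool.Agent.N784.CZ.G.Stm
import Pool.Agent.N400.CZ.SplitMain

/-!
# CZ/G1: splitting of the primes of a number field in its ray class field
-/

set_option autoImplicit false

namespace Pool.Agent.N400.CZ

/-- **CZ/G1** -/
theorem t_split : Pool.Agent.N784.CZ.StSplit := by
  intro M _ _ 𝔮 hbot htop K _ _ ι art H 𝔭 hp hp0 hc
  exact split_main 𝔮 hbot htop K ι art H.mul H.invariants H.kernel H.unramified H.frobenius 𝔭 hp
    hp0 hc

end Pool.Agent.N400.CZ
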